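import Mathlib.Data.Nat.Bitwise
import Mathlib.Tactic

set_option autoImplicit false

namespace Pool.Agent.H520Z.Equi

/-- rows: index, adjacency mask, mask of the other non-neighbours, weight -/
def tbl : List (ℕ × ℕ × ℕ × ℕ) :=
  [(0, 16352, 30, 174), (1, 14776, 1605, 49), (2, 12152, 4227, 97), (3, 16070, 305, 69),
   (4, 13798, 2569, 77), (5, 15895, 456, 79), (6, 14621, 1698, 109), (7, 12059, 4196, 132),
   (8, 6871, 9256, 172), (9, 12717, 3154, 66), (10, 6333, 9026, 96), (11, 1519, 12816, 177),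
   (12, 1915, 10372, 91), (13, 767, 7424, 52)]

def stars : List ℕ := [7, 25, 224, 296, 1602, 2576, 4228, 14336, 9472]

def stableN (m : ℕ) : Bool := tbl.all fun r => !(m.testBit r.1) || Nat.beq (r.2.1 &&& m) 0

def domN (m : ℕ) : Bool := tbl.all fun r => m.testBit r.1 || !(Nat.beq (r.2.1 &&& m) 0)

def sumN (m : ℕ) : ℕ := (tbl.map fun r => cond (m.testBit r.1) r.2.2.2 0).sum

def cliqueN (m : ℕ) : Bool := tbl.all fun r => !(m.testBit r.1) || Nat.beq (r.2.2.1 &&& m) 0

def coverN (m : ℕ) : Bool := stars.all fun s => !(Nat.beq (s &&& m) 0)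

def testN (m : ℕ) : Bool :=
  ((stableN m && domN m) == (Nat.beq (sumN m) 320)) && !(cliqueN m && coverN m)

def go : ℕ → ℕ → Bool
  | 0, m => testN m
  | d + 1, m => go d (2 * m) && go d (2 * m + 1)

theorem go_spec : ∀ (d m : ℕ), go d m = true → ∀ k, k < 2 ^ d → testN (2 ^ d * m + k) = true
  | 0, m, h, k, hk => by
      have : k = 0 := by simpa using hk
      subst this
      simpa [go] using h
  | d + 1, m, h, k, hk => by
      rw [go, Bool.and_eq_true] at h
      by_cases hk2 : k < 2 ^ d
      · have := go_spec d (2 * m) h.1 k hk2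
        rwa [show 2 ^ d * (2 * m) + k = 2 ^ (d + 1) * m + k by ring] at this
      · have := go_spec d (2 * m + 1) h.2 (k - 2 ^ d) (by rw [pow_succ] at hk; omega)
        rwa [show 2 ^ d * (2 * m + 1) + (k - 2 ^ d) = 2 ^ (d + 1) * m + k by
          have : 2 ^ d * (2 * m + 1) = 2 ^ (d + 1) * m + 2 ^ d := by ring
          omega] at this

theorem go_all : go 14 0 = true := by decide +kernel

theorem testN_all (k : ℕ) (hk : k < 2 ^ 14) : testN k = true := by
  simpa using go_spec 14 0 go_all k hk

end Pool.Agent.H520Z.Equi
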