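import Mathlib

set_option autoImplicit false

namespace Pool.Agent.H520Z.Equi

/-- `S` is a maximal stable set of `G` (maximal with respect to inclusion). -/
def IsMaxStable {V : Type} (G : SimpleGraph V) (S : Finset V) : Prop :=
  Maximal (fun T : Finset V => G.IsIndepSet (T : Set V)) S

/-- `C` is a maximal clique of `G` (maximal with respect to inclusion). -/
def IsMaxClique {V : Type} (G : SimpleGraph V) (C : Finset V) : Prop :=
  Maximal (fun T : Finset V => G.IsClique (T : Set V)) C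

/-- `G` is equistable: for some nonnegative real weights on the vertices, the vertex sets of total
weight `1` are exactly the maximal stable sets. -/
def Equistable {V : Type} (G : SimpleGraph V) : Prop :=
  ∃ φ : V → ℝ, (∀ v, 0 ≤ φ v) ∧ ∀ S : Finset V, IsMaxStable G S ↔ ∑ v ∈ S, φ v = 1

/-- `G` is weakly CIS: there are an edge covering family of maximal cliques and a non-edge
covering family of maximal stable sets that are cross-intersecting. -/
def WeaklyCIS {V : Type} (G : SimpleGraph V) : Prop :=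
  ∃ 𝒞 𝒮 : Set (Finset V),
    (∀ C ∈ 𝒞, IsMaxClique G C) ∧ (∀ S ∈ 𝒮, IsMaxStable G S) ∧
    (∀ u v, G.Adj u v → ∃ C ∈ 𝒞, u ∈ C ∧ v ∈ C) ∧
    (∀ u v, u ≠ v → ¬ G.Adj u v → ∃ S ∈ 𝒮, u ∈ S ∧ v ∈ S) ∧
    ∀ C ∈ 𝒞, ∀ S ∈ 𝒮, ∃ x, x ∈ C ∧ x ∈ S

end Pool.Agent.H520Z.Equi
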