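import Pool.Agent.H520Z.EqDefs
import Pool.Agent.H520Z.EqCheck

set_option autoImplicit false

namespace Pool.Agent.H520Z.Equi

def adjM : Fin 14 → ℕ :=
  ![16352, 14776, 12152, 16070, 13798, 15895, 14621, 12059, 6871, 12717, 6333, 1519, 1915, 767]

def nonM : Fin 14 → ℕ :=
  ![30, 1605, 4227, 305, 2569, 456, 1698, 4196, 9256, 3154, 9026, 12816, 10372, 7424]

def wt : Fin 14 → ℕ := ![174, 49, 97, 69, 77, 79, 109, 132, 172, 66, 96, 177, 91, 52]

def adj (e f : Fin 14) : Bool := (adjM e).testBit f

/-- The complement of the line graph of a triangle-free graph with nine vertices and fourteen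
edges. -/
def G : SimpleGraph (Fin 14) where
  Adj e f := adj e f = true
  symm := ⟨by decide +kernel⟩
  loopless := ⟨by decide +kernel⟩

theorem tbl_eq : tbl = List.map (fun e : Fin 14 => (e.val, adjM e, nonM e, wt e)) (List.finRange 14) := by
  decide +kernel

theorem non_spec : ∀ e f : Fin 14, (nonM e).testBit f = true → e ≠ f ∧ ¬ adj e f = true := by
  decide +kernel

def mask (S : Finset (Fin 14)) : ℕ := Nat.ofBits fun e : Fin 14 => decide (e ∈ S)

theorem mask_lt (S : Finset (Fin 14)) : mask S < 2 ^ 14 := Nat.ofBits_lt_two_pow _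

theorem mask_bit (S : Finset (Fin 14)) (e : Fin 14) : (mask S).testBit e = decide (e ∈ S) := by
  unfold mask
  rw [Nat.testBit_ofBits_lt _ _ e.2]

theorem and_mask (a : ℕ) (S : Finset (Fin 14)) :
    Nat.beq (a &&& mask S) 0 = true ↔ ∀ f ∈ S, ¬ a.testBit f = true := by
  rw [Nat.beq_eq]
  constructor
  · intro h f hf ha
    have : (a &&& mask S).testBit f = true := by
      rw [Nat.testBit_and, ha, mask_bit]; simpa using hf
    rw [h] at this
    simp at this
  · intro h
    apply Nat.eq_of_testBit_eq
    intro i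
    rw [Nat.testBit_and, Nat.zero_testBit]
    by_cases hi : i < 14
    · have h1 := mask_bit S ⟨i, hi⟩
      simp only at h1
      rw [h1]
      by_cases hS : (⟨i, hi⟩ : Fin 14) ∈ S
      · have := h _ hS
        simp only [Bool.not_eq_true] at this
        simp [this]
      · simp [hS]
    · have : (mask S).testBit i = false :=
        Nat.testBit_lt_two_pow ((mask_lt S).trans_le (Nat.pow_le_pow_right (by norm_num) (by omega)))
      simp [this]

theorem stableN_iff (S : Finset (Fin 14)) :
    stableN (mask S) = true ↔ ∀ e ∈ S, ∀ f ∈ S, ¬ adj e f = true := by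
  unfold stableN
  rw [tbl_eq, List.all_map, List.all_eq_true]
  simp only [List.mem_finRange, true_imp_iff, Function.comp, Bool.or_eq_true, and_mask, mask_bit,
    Bool.not_eq_true', decide_eq_false_iff_not]
  constructor
  · intro h e he
    exact (h e).resolve_left (fun h => h he)
  · intro h e
    by_cases he : e ∈ S
    · exact Or.inr (h e he)
    · exact Or.inl he

theorem domN_iff (S : Finset (Fin 14)) :
    domN (mask S) = true ↔ ∀ e, e ∉ S → ∃ f ∈ S, adj e f = true := by
  unfold domN
  rw [tbl_eq, List.all_map, List.all_eq_true]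
  simp only [List.mem_finRange, true_imp_iff, Function.comp, Bool.or_eq_true, mask_bit,
    decide_eq_true_eq, Bool.not_eq_true']
  have key : ∀ e : Fin 14, Nat.beq (adjM e &&& mask S) 0 = false ↔ ∃ f ∈ S, adj e f = true := by
    intro e
    rw [← Bool.not_eq_true, and_mask]
    push Not
    rfl
  simp only [key]
  constructor
  · intro h e he
    exact (h e).resolve_left he
  · intro h e
    by_cases he : e ∈ S
    · exact Or.inl he
    · exact Or.inr (h e he)

theorem sumN_eq (S : Finset (Fin 14)) : sumN (mask S) = ∑ e ∈ S, wt e := by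
  unfold sumN
  rw [tbl_eq, List.map_map, ← Fin.sum_univ_def]
  simp only [Function.comp, mask_bit, Bool.cond_decide]
  rw [Finset.sum_ite_mem, Finset.univ_inter]

theorem maxStable_iff (S : Finset (Fin 14)) :
    IsMaxStable G S ↔ (stableN (mask S) && domN (mask S)) = true := by
  have hst : ∀ T : Finset (Fin 14), G.IsIndepSet (T : Set (Fin 14)) ↔
      ∀ e ∈ T, ∀ f ∈ T, ¬ adj e f = true := by
    intro T
    constructor
    · intro h e he f hf hef
      have hne : e ≠ f := (show G.Adj e f from hef).ne
      exact h (Finset.mem_coe.2 he) (Finset.mem_coe.2 hf) hne hef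
    · intro h e he f hf _
      exact h e (Finset.mem_coe.1 he) f (Finset.mem_coe.1 hf)
  rw [Bool.and_eq_true, stableN_iff, domN_iff]
  unfold IsMaxStable
  constructor
  · intro h
    refine ⟨(hst S).1 h.1, fun e he => ?_⟩
    by_contra hc
    have hc : ∀ f ∈ S, ¬ adj e f = true := fun f hf hh => hc ⟨f, hf, hh⟩
    have h3 : G.IsIndepSet ((insert e S : Finset (Fin 14)) : Set (Fin 14)) := by
      rw [hst]
      intro a ha c hc'
      rw [Finset.mem_insert] at ha hc'
      rcases ha with rfl | ha
      · rcases hc' with rfl | hc'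
        · exact fun h => (show G.Adj c c from h).ne rfl
        · exact hc c hc'
      · rcases hc' with rfl | hc'
        · exact fun h => hc a ha (show G.Adj c a from (show G.Adj a c from h).symm)
        · exact (hst S).1 h.1 a ha c hc'
    exact he (h.2 h3 (Finset.subset_insert e S) (Finset.mem_insert_self e S))
  · rintro ⟨h3, h4⟩
    refine ⟨(hst S).2 h3, fun T hT hST e he => ?_⟩
    by_contra hc
    obtain ⟨f, hf, hef⟩ := h4 e hc
    exact (hst T).1 hT e he f (hST hf) hef

theorem equistable : Equistable G := by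
  refine ⟨fun e => (wt e : ℝ) / 320, fun e => by positivity, fun S => ?_⟩
  have h := testN_all _ (mask_lt S)
  unfold testN at h
  rw [Bool.and_eq_true, beq_iff_eq] at h
  rw [maxStable_iff, h.1, Nat.beq_eq, sumN_eq, ← Finset.sum_div, div_eq_one_iff_eq (by norm_num),
    ← Nat.cast_sum]
  exact_mod_cast Iff.rfl

theorem star_pair : ∀ s ∈ stars, ∃ u v : Fin 14, u ≠ v ∧ ¬ adj u v = true ∧
    ∀ w : Fin 14, ¬ adj w u = true → ¬ adj w v = true → s.testBit w = true := by
  decide +kernel

theorem not_weaklyCIS : ¬ WeaklyCIS G := by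
  rintro ⟨𝒞, 𝒮, hC, hS, hE, hN, hX⟩
  obtain ⟨C, hCm, -⟩ := hE 0 5 (show adj 0 5 = true by decide +kernel)
  have h := testN_all _ (mask_lt C)
  unfold testN at h
  rw [Bool.and_eq_true] at h
  have h1 : cliqueN (mask C) = true := by
    unfold cliqueN
    rw [tbl_eq, List.all_map, List.all_eq_true]
    simp only [List.mem_finRange, true_imp_iff, Function.comp, Bool.or_eq_true, and_mask, mask_bit,
      Bool.not_eq_true', decide_eq_false_iff_not]
    intro e
    by_cases he : e ∈ C
    · right
      intro f hf hn
      obtain ⟨h2, h3⟩ := non_spec e f hn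
      exact h3 ((hC C hCm).1 (Finset.mem_coe.2 he) (Finset.mem_coe.2 hf) h2)
    · exact Or.inl he
  have h2 : coverN (mask C) = true := by
    unfold coverN
    rw [List.all_eq_true]
    intro s hs
    rw [Bool.not_eq_true', ← Bool.not_eq_true, and_mask]
    intro hall
    obtain ⟨u, v, huv, hna, hw⟩ := star_pair s hs
    obtain ⟨S, hSm, hu, hv⟩ := hN u v huv hna
    obtain ⟨w, hwC, hwS⟩ := hX C hCm S hSm
    refine hall w hwC (hw w ?_ ?_)
    · intro hadj
      exact (hS S hSm).1 (Finset.mem_coe.2 hwS) (Finset.mem_coe.2 hu)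
        (show G.Adj w u from hadj).ne hadj
    · intro hadj
      exact (hS S hSm).1 (Finset.mem_coe.2 hwS) (Finset.mem_coe.2 hv)
        (show G.Adj w v from hadj).ne hadj
  rw [h1, h2] at h
  exact absurd h.2 (by decide)

end Pool.Agent.H520Z.Equi
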